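import Mathlib

set_option autoImplicit false

/-!
# Antipalindromic numbers in base 3: recursion
-/

namespace Pool.Agent.K1H4.AP

open Finset

/-- The numbers with `2 m + 1` digits (leading zeros allowed) with antisymmetric digits. -/
def S : ℕ → Finset ℕ
  | 0 => {1}
  | m + 1 => (S m ×ˢ range 3).image fun p => 3 * p.1 + p.2 + (2 - p.2) * 9 ^ (m + 1)

theorem inj (m : ℕ) : Set.InjOn (fun p : ℕ × ℕ => 3 * p.1 + p.2 + (2 - p.2) * 9 ^ (m + 1))
    ((S m ×ˢ range 3 : Finset (ℕ × ℕ)) : Set (ℕ × ℕ)) := by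
  rintro ⟨N, a⟩ h1 ⟨N', a'⟩ h2 h
  rw [mem_coe, mem_product, mem_range] at h1 h2
  have ha : a < 3 := h1.2
  have ha' : a' < 3 := h2.2
  simp only at h
  have h9 : 9 ^ (m + 1) = 9 * 9 ^ m := by ring
  rw [h9] at h
  generalize 9 ^ m = X at h
  have e1 : a = a' := by
    rcases (by omega : a = 0 ∨ a = 1 ∨ a = 2) with rfl | rfl | rfl <;>
      rcases (by omega : a' = 0 ∨ a' = 1 ∨ a' = 2) with rfl | rfl | rfl <;>
      omega
  subst e1
  have e2 : N = N' := by omega
  rw [e2]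

theorem sum_S {M : Type} [AddCommMonoid M] (m : ℕ) (F : ℕ → M) :
    ∑ N ∈ S (m + 1), F N = ∑ N ∈ S m, ∑ a ∈ range 3, F (3 * N + a + (2 - a) * 9 ^ (m + 1)) := by
  rw [S, sum_image (inj m), sum_product]

theorem card_S (m : ℕ) : (S m).card = 3 ^ m := by
  induction m with
  | zero => rfl
  | succ m ih =>
    rw [S, card_image_of_injOn (inj m), card_product, ih, card_range, pow_succ]

theorem mod_digit (x : ℕ) {j J : ℕ} (h : j < J) : x % 3 ^ J / 3 ^ j % 3 = x / 3 ^ j % 3 := by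
  obtain ⟨t, rfl⟩ := Nat.exists_eq_add_of_lt h
  have h1 : (3 : ℕ) ^ (j + t + 1) = 3 ^ j * (3 * 3 ^ t) := by ring
  have h3 : 0 < 3 ^ j := by positivity
  conv_rhs => rw [← Nat.div_add_mod x (3 ^ (j + t + 1))]
  rw [h1, mul_assoc, Nat.mul_add_div h3]
  rw [show 3 * 3 ^ t * (x / (3 ^ j * (3 * 3 ^ t))) = 3 * (3 ^ t * (x / (3 ^ j * (3 * 3 ^ t)))) by
    ring, Nat.mul_add_mod]

/-- The digit condition. -/
def Anti (m n : ℕ) : Prop := ∀ j ≤ 2 * m, n / 3 ^ j % 3 + n / 3 ^ (2 * m - j) % 3 = 2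

theorem mem_S {m n : ℕ} (hn : n < 3 ^ (2 * m + 1)) (h : Anti m n) : n ∈ S m := by
  induction m generalizing n with
  | zero =>
    have h1 := h 0 (le_refl _)
    simp at h1 hn
    have : n = 1 := by omega
    rw [this]
    simp [S]
  | succ m ih =>
    set N := n / 3 % 3 ^ (2 * m + 1) with hN
    have hNlt : N < 3 ^ (2 * m + 1) := Nat.mod_lt _ (by positivity)
    have hdig : ∀ j ≤ 2 * m, N / 3 ^ j % 3 = n / 3 ^ (j + 1) % 3 := by
      intro j hj
      rw [hN, mod_digit _ (by omega), Nat.div_div_eq_div_mul, pow_succ']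
    have hNS : N ∈ S m := by
      refine ih hNlt fun j hj => ?_
      rw [hdig j hj, hdig _ (Nat.sub_le _ _)]
      have h1 := h (j + 1) (by omega)
      rwa [show 2 * (m + 1) - (j + 1) = 2 * m - j + 1 by omega] at h1
    have h0 := h 0 (Nat.zero_le _)
    rw [pow_zero, Nat.div_one, Nat.sub_zero] at h0
    have ht : n / 3 ^ (2 * (m + 1)) = n / 3 / 3 ^ (2 * m + 1) := by
      rw [Nat.div_div_eq_div_mul, ← pow_succ', show 2 * (m + 1) = 2 * m + 1 + 1 by ring]
    have ht3 : n / 3 ^ (2 * (m + 1)) < 3 := by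
      rw [Nat.div_lt_iff_lt_mul (by positivity)]
      calc n < 3 ^ (2 * (m + 1) + 1) := hn
        _ = 3 * 3 ^ (2 * (m + 1)) := by ring
    rw [Nat.mod_eq_of_lt ht3] at h0
    rw [S, mem_image]
    refine ⟨(N, n % 3), mem_product.2 ⟨hNS, mem_range.2 (Nat.mod_lt _ (by norm_num))⟩, ?_⟩
    simp only
    have h2 : 2 - n % 3 = n / 3 / 3 ^ (2 * m + 1) := by rw [← ht]; omega
    have h3 := Nat.div_add_mod (n / 3) (3 ^ (2 * m + 1))
    have h4 := Nat.div_add_mod n 3
    rw [h2]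
    have h5 : (9 : ℕ) ^ (m + 1) = 3 * 3 ^ (2 * m + 1) := by
      rw [show (9 : ℕ) = 3 ^ 2 by norm_num, ← pow_mul]
      ring
    rw [h5]
    have h6 : n / 3 / 3 ^ (2 * m + 1) * (3 * 3 ^ (2 * m + 1)) =
        3 * (3 ^ (2 * m + 1) * (n / 3 / 3 ^ (2 * m + 1))) := by ring
    rw [h6]
    omega

theorem lt_of_mem {m n : ℕ} (h : n ∈ S m) : n < 3 ^ (2 * m + 1) := by
  induction m generalizing n with
  | zero =>
    simp [S] at h
    simp [h]
  | succ m ih =>
    rw [S, mem_image] at h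
    obtain ⟨⟨N, a⟩, hp, rfl⟩ := h
    rw [mem_product, mem_range] at hp
    have h1 := ih hp.1
    have ha : a < 3 := hp.2
    simp only at h1 ⊢
    have h5 : (9 : ℕ) ^ (m + 1) = 3 * 3 ^ (2 * m + 1) := by
      rw [show (9 : ℕ) = 3 ^ 2 by norm_num, ← pow_mul]
      ring
    have h6 : 3 ^ (2 * (m + 1) + 1) = 9 * 3 ^ (2 * m + 1) := by ring
    rw [h5, h6]
    generalize 3 ^ (2 * m + 1) = X at *
    interval_cases a <;> omega

theorem anti_of_mem {m n : ℕ} (h : n ∈ S m) : Anti m n := by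
  induction m generalizing n with
  | zero =>
    simp [S] at h
    subst h
    intro j hj
    have : j = 0 := by omega
    subst this
    norm_num
  | succ m ih =>
    rw [S, mem_image] at h
    obtain ⟨⟨N, a⟩, hp, rfl⟩ := h
    rw [mem_product, mem_range] at hp
    have hN := lt_of_mem hp.1
    have hA := ih hp.1
    have ha : a < 3 := hp.2
    simp only at hN hA ⊢
    have h5 : (9 : ℕ) ^ (m + 1) = 3 * 3 ^ (2 * m + 1) := by
      rw [show (9 : ℕ) = 3 ^ 2 by norm_num, ← pow_mul]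
      ring
    set n := 3 * N + a + (2 - a) * 9 ^ (m + 1) with hn
    have hn' : n = 3 * (N + 3 ^ (2 * m + 1) * (2 - a)) + a := by
      rw [hn, h5]
      ring
    have hmod : n % 3 = a := by omega
    have hdiv : n / 3 = N + 3 ^ (2 * m + 1) * (2 - a) := by omega
    have hlow : ∀ j ≤ 2 * m, n / 3 ^ (j + 1) % 3 = N / 3 ^ j % 3 := by
      intro j hj
      rw [pow_succ', ← Nat.div_div_eq_div_mul, hdiv, ← mod_digit _ (Nat.lt_succ_of_le hj),
        Nat.add_mul_mod_self_left, Nat.mod_eq_of_lt hN]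
    have htop : n / 3 ^ (2 * m + 1 + 1) % 3 = 2 - a := by
      rw [pow_succ', ← Nat.div_div_eq_div_mul, hdiv, Nat.add_mul_div_left _ _ (by positivity),
        Nat.div_eq_of_lt hN]
      omega
    intro j hj
    rcases Nat.eq_zero_or_pos j with rfl | hj0
    · rw [Nat.sub_zero, pow_zero, Nat.div_one, hmod,
        show 2 * (m + 1) = 2 * m + 1 + 1 by ring, htop]
      omega
    · obtain ⟨j, rfl⟩ := Nat.exists_eq_succ_of_ne_zero hj0.ne'
      rcases Nat.lt_or_ge j (2 * m + 1) with h1 | h1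
      · rw [Nat.succ_eq_add_one, hlow j (by omega),
          show 2 * (m + 1) - (j + 1) = 2 * m - j + 1 by omega, hlow _ (Nat.sub_le _ _)]
        exact hA j (by omega)
      · have h2 : j = 2 * m + 1 := by omega
        subst h2
        rw [Nat.succ_eq_add_one, htop, show 2 * (m + 1) - (2 * m + 1 + 1) = 0 by omega,
          pow_zero, Nat.div_one, hmod]
        omega

end Pool.Agent.K1H4.AP
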