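import Pool.Agent.K1H4.AP.Four

set_option autoImplicit false

/-!
# Antipalindromic numbers in base 3: prime factors
-/

namespace Pool.Agent.K1H4.AP

open Finset Filter Topology

section

variable {q : ℕ} [NeZero q]

theorem orth (m : ℕ) (r : ZMod q) :
    (q : ℂ) * (((S m).filter fun N : ℕ => (N : ZMod q) = r).card : ℂ) =
      ∑ ψ : AddChar (ZMod q) ℂ, ψ (-r) * E m ψ := by
  classical
  have h1 : ∀ ψ ∈ (univ : Finset (AddChar (ZMod q) ℂ)), ψ (-r) * E m ψ =
      ∑ N ∈ S m, ψ ((N : ZMod q) - r) := by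
    intro ψ _
    unfold E
    rw [mul_sum]
    refine sum_congr rfl fun N _ => ?_
    rw [← AddChar.map_add_eq_mul, neg_add_eq_sub]
  rw [sum_congr rfl h1, sum_comm]
  have h2 : ∀ N ∈ S m, ∑ ψ : AddChar (ZMod q) ℂ, ψ ((N : ZMod q) - r) =
      if (N : ZMod q) = r then (q : ℂ) else 0 := by
    intro N _
    rw [AddChar.sum_apply_eq_ite, ZMod.card]
    simp only [sub_eq_zero]
  rw [sum_congr rfl h2, ← sum_filter, sum_const, nsmul_eq_mul, mul_comm]

theorem equi (hq : q.Coprime 6) (r : ZMod q) :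
    Tendsto (fun m => (((S m).filter fun N : ℕ => (N : ZMod q) = r).card : ℝ) / 3 ^ m) atTop
      (𝓝 (1 / q)) := by
  classical
  obtain ⟨ρ, hρ0, hρ1, hρ⟩ := E_bound hq
  have hq0 : (0 : ℝ) < q := by exact_mod_cast Nat.pos_of_ne_zero (NeZero.ne q)
  set C : ℝ := (((univ : Finset (AddChar (ZMod q) ℂ)).erase 0).card : ℝ) with hC
  have key : ∀ m, |(((S m).filter fun N : ℕ => (N : ZMod q) = r).card : ℝ) / 3 ^ m - 1 / q| ≤
      C / q * ρ ^ cc (Nat.totient q) m := by
    intro m
    have h3 : (0 : ℝ) < 3 ^ m := by positivity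
    have h1 := orth m r
    rw [← add_sum_erase univ _ (mem_univ (0 : AddChar (ZMod q) ℂ))] at h1
    have h2 : (0 : AddChar (ZMod q) ℂ) (-r) * E m (0 : AddChar (ZMod q) ℂ) = 3 ^ m := by
      unfold E
      simp only [AddChar.zero_apply, sum_const, nsmul_eq_mul, one_mul, mul_one]
      rw [card_S]
      push_cast
      rfl
    rw [h2] at h1
    have h4 : ‖∑ ψ ∈ (univ : Finset (AddChar (ZMod q) ℂ)).erase 0, ψ (-r) * E m ψ‖ ≤
        C * (3 ^ m * ρ ^ cc (Nat.totient q) m) := by
      rw [hC, ← nsmul_eq_mul]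
      refine norm_sum_le_of_le _ (fun ψ hψ => ?_) |>.trans (by rw [sum_const])
      rw [norm_mul, AddChar.norm_apply, one_mul]
      exact hρ m ψ (AddChar.ne_zero_iff.1 (ne_of_mem_erase hψ))
    have h5 : |(q : ℝ) * (((S m).filter fun N : ℕ => (N : ZMod q) = r).card : ℝ) - 3 ^ m| ≤
        C * (3 ^ m * ρ ^ cc (Nat.totient q) m) := by
      rw [← Real.norm_eq_abs, ← Complex.norm_real]
      push_cast
      rw [h1, add_sub_cancel_left]
      exact h4
    have h6 : (((S m).filter fun N : ℕ => (N : ZMod q) = r).card : ℝ) / 3 ^ m - 1 / q =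
        ((q : ℝ) * (((S m).filter fun N : ℕ => (N : ZMod q) = r).card : ℝ) - 3 ^ m) /
          (q * 3 ^ m) := by
      field_simp
    rw [h6, abs_div, abs_of_pos (by positivity : (0 : ℝ) < q * 3 ^ m),
      div_le_iff₀ (by positivity)]
    calc _ ≤ C * (3 ^ m * ρ ^ cc (Nat.totient q) m) := h5
      _ = _ := by field_simp
  have h0 : Tendsto (fun m => C / q * ρ ^ cc (Nat.totient q) m) atTop (𝓝 0) := by
    have h1 : Tendsto (fun n : ℕ => ρ ^ n) atTop (𝓝 0) :=
      tendsto_pow_atTop_nhds_zero_of_lt_one hρ0.le hρ1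
    have h2 := (h1.comp (cc_tendsto (Nat.totient_pos.2 (Nat.pos_of_ne_zero (NeZero.ne q))))).const_mul
      (C / q)
    simpa using h2
  rw [tendsto_iff_norm_sub_tendsto_zero]
  exact squeeze_zero (fun _ => norm_nonneg _) (fun m => key m) h0

theorem coprime_tendsto (hq : q.Coprime 6) :
    Tendsto (fun m => (((S m).filter fun N : ℕ => q.Coprime N).card : ℝ) / 3 ^ m) atTop
      (𝓝 ((Nat.totient q : ℝ) / q)) := by
  classical
  have hq0 : 0 < q := Nat.pos_of_ne_zero (NeZero.ne q)
  have h : ∀ m, ((S m).filter fun N : ℕ => q.Coprime N).card =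
      ∑ a ∈ (range q).filter fun a => q.Coprime a,
        ((S m).filter fun N : ℕ => (N : ZMod q) = (a : ZMod q)).card := by
    intro m
    rw [card_eq_sum_card_fiberwise (f := fun N => N % q)
      (t := (range q).filter fun a => q.Coprime a)]
    · refine sum_congr rfl fun a ha => ?_
      rw [mem_filter, mem_range] at ha
      congr 1
      ext N
      simp only [mem_filter]
      rw [ZMod.natCast_eq_natCast_iff', Nat.mod_eq_of_lt ha.1]
      constructor
      · rintro ⟨⟨h1, _⟩, h3⟩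
        exact ⟨h1, h3⟩
      · rintro ⟨h1, h3⟩
        refine ⟨⟨h1, ?_⟩, h3⟩
        rw [Nat.Coprime, Nat.gcd_rec, h3, Nat.gcd_comm]
        exact ha.2
    · intro N hN
      rw [mem_coe, mem_filter] at hN
      rw [mem_coe, mem_filter, mem_range]
      refine ⟨Nat.mod_lt _ hq0, ?_⟩
      have h1 := hN.2
      rw [Nat.Coprime, Nat.gcd_rec] at h1
      rw [Nat.Coprime, Nat.gcd_comm]
      exact h1
  have h2 : Tendsto (fun m => ∑ a ∈ (range q).filter fun a => q.Coprime a,
      (((S m).filter fun N : ℕ => (N : ZMod q) = (a : ZMod q)).card : ℝ) / 3 ^ m) atTop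
      (𝓝 (∑ a ∈ (range q).filter fun a => q.Coprime a, (1 / (q : ℝ)))) :=
    tendsto_finsetSum _ fun a _ => equi hq a
  rw [sum_const, ← Nat.totient_eq_card_coprime, nsmul_eq_mul, mul_one_div] at h2
  refine h2.congr fun m => ?_
  rw [h m, Nat.cast_sum, sum_div]

end

theorem exists_primes (F : Finset ℕ) {δ : ℝ} (hδ : 0 < δ) : ∃ P : Finset ℕ,
    (∀ p ∈ P, p.Prime ∧ 5 ≤ p ∧ p ∉ F) ∧
      (Nat.totient (∏ p ∈ P, p) : ℝ) / ((∏ p ∈ P, p : ℕ) : ℝ) < δ := by
  classical
  set F' := F ∪ {2, 3} with hF'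
  set g : Nat.Primes → ℝ := fun p => if (p : ℕ) ∈ F' then 0 else 1 / (p : ℝ) with hg
  have hns : ¬ Summable g := by
    intro hs
    apply Nat.Primes.not_summable_one_div
    refine (summable_congr_cofinite ?_).1 hs
    have hfin : {p : Nat.Primes | (p : ℕ) ∈ F'}.Finite :=
      Set.Finite.preimage (Set.injOn_of_injective Nat.Primes.coe_nat_injective)
        (F'.finite_toSet)
    refine hfin.subset ?_
    intro p hp
    by_contra h1
    apply hp
    simp only [hg]
    exact if_neg h1
  have hg0 : ∀ p, 0 ≤ g p := by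
    intro p
    simp only [hg]
    split_ifs <;> positivity
  obtain ⟨u, hu⟩ : ∃ u : Finset Nat.Primes, Real.log (1 / δ) < ∑ p ∈ u, g p := by
    by_contra hcon
    push Not at hcon
    exact hns (summable_of_sum_le hg0 hcon)
  set P := (u.filter fun p : Nat.Primes => (p : ℕ) ∉ F').image (fun p : Nat.Primes => (p : ℕ)) with hP
  have hPp : ∀ p ∈ P, p.Prime ∧ 5 ≤ p ∧ p ∉ F := by
    intro p hp
    obtain ⟨p', hp', rfl⟩ := mem_image.1 hp
    have h1 := (mem_filter.1 hp').2
    rw [hF', mem_union, not_or] at h1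
    have h2 : (p' : ℕ) ≠ 2 := fun h => h1.2 (by simp [h])
    have h3 : (p' : ℕ) ≠ 3 := fun h => h1.2 (by simp [h])
    have h4 : (p' : ℕ) ≠ 4 := by
      intro h
      have h5 : (p' : ℕ).Prime := p'.2
      rw [h] at h5
      exact absurd h5 (by norm_num)
    have h5 := p'.2.two_le
    refine ⟨p'.2, ?_, h1.1⟩
    omega
  refine ⟨P, hPp, ?_⟩
  have hsum : ∑ p ∈ P, 1 / (p : ℝ) = ∑ p ∈ u, g p := by
    rw [hP, sum_image (g := fun p : Nat.Primes => (p : ℕ))
      (fun a _ b _ h => Nat.Primes.coe_nat_injective h), sum_filter]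
    refine sum_congr rfl fun p _ => ?_
    simp only [hg]
    split_ifs <;> rfl
  have hQ0 : (0 : ℝ) < ((∏ p ∈ P, p : ℕ) : ℝ) := by
    exact_mod_cast prod_pos fun p hp => (hPp p hp).1.pos
  have htot : (Nat.totient (∏ p ∈ P, p) : ℝ) / ((∏ p ∈ P, p : ℕ) : ℝ) =
      ∏ p ∈ P, (1 - 1 / (p : ℝ)) := by
    have h1 := Nat.totient_eq_mul_prod_factors (∏ p ∈ P, p)
    rw [Nat.primeFactors_prod (fun p hp => (hPp p hp).1)] at h1
    have h2 : (Nat.totient (∏ p ∈ P, p) : ℝ) =
        ((∏ p ∈ P, p : ℕ) : ℝ) * ∏ p ∈ P, (1 - ((p : ℝ))⁻¹) := by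
      have h3 := congrArg (fun x : ℚ => (x : ℝ)) h1
      push_cast at h3
      rw [h3]
      push_cast
      rfl
    rw [h2]
    field_simp
  rw [htot]
  calc ∏ p ∈ P, (1 - 1 / (p : ℝ)) ≤ ∏ p ∈ P, Real.exp (-(1 / (p : ℝ))) := by
        refine prod_le_prod (fun p hp => ?_) (fun p hp => ?_)
        · have h1 : (1 : ℝ) ≤ p := by exact_mod_cast (hPp p hp).1.one_lt.le
          have h2 : 1 / (p : ℝ) ≤ 1 := by
            rw [div_le_one (by linarith)]
            exact h1
          linarith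
        · have := Real.add_one_le_exp (-(1 / (p : ℝ)))
          linarith
    _ = Real.exp (-∑ p ∈ P, 1 / (p : ℝ)) := by
        rw [← Real.exp_sum, sum_neg_distrib]
    _ < Real.exp (-Real.log (1 / δ)) := by
        rw [Real.exp_lt_exp, hsum]
        linarith
    _ = δ := by
        rw [one_div, Real.log_inv, neg_neg, Real.exp_log hδ]

theorem ne_zero_of_mem {m n : ℕ} (h : n ∈ S m) : n ≠ 0 := by
  rintro rfl
  have h1 := anti_of_mem h m (by omega)
  simp at h1

theorem many (k : ℕ) : ∀ (F : Finset ℕ) (δ : ℝ), 0 < δ → ∀ᶠ m in atTop,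
    (((S m).filter fun N => (N.primeFactors \ F).card < k).card : ℝ) ≤ δ * 3 ^ m := by
  classical
  induction k with
  | zero =>
    intro F δ hδ
    refine Eventually.of_forall fun m => ?_
    simp only [Nat.not_lt_zero, filter_false, card_empty, Nat.cast_zero]
    positivity
  | succ k ih =>
    intro F δ hδ
    obtain ⟨P, hP, hP2⟩ := exists_primes F (half_pos hδ)
    set q := ∏ p ∈ P, p with hq
    have hq0 : q ≠ 0 := prod_ne_zero_iff.2 fun p hp => (hP p hp).1.ne_zero
    have : NeZero q := ⟨hq0⟩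
    have hq6 : q.Coprime 6 := by
      rw [hq]
      refine Nat.Coprime.prod_left fun p hp => ?_
      rw [Nat.Prime.coprime_iff_not_dvd (hP p hp).1]
      intro h1
      have h2 := Nat.le_of_dvd (by norm_num) h1
      have h3 := (hP p hp).2.1
      have h4 := (hP p hp).1
      interval_cases p
      · omega
      · exact absurd h4 (by norm_num)
    have h1 := (coprime_tendsto hq6).eventually_lt_const hP2
    filter_upwards [h1, ih (F ∪ P) (δ / 2) (half_pos hδ)] with m h2 h3
    have hsub : ((S m).filter fun N => (N.primeFactors \ F).card < k + 1) ⊆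
        ((S m).filter fun N : ℕ => q.Coprime N) ∪
          ((S m).filter fun N => (N.primeFactors \ (F ∪ P)).card < k) := by
      intro N hN
      rw [mem_filter] at hN
      rw [mem_union, mem_filter, mem_filter]
      by_contra hcon
      rw [not_or] at hcon
      have h4 : ¬ q.Coprime N := fun h => hcon.1 ⟨hN.1, h⟩
      have h5 : k ≤ (N.primeFactors \ (F ∪ P)).card := not_lt.1 fun h => hcon.2 ⟨hN.1, h⟩
      obtain ⟨p, hp, hpq, hpN⟩ := Nat.Prime.not_coprime_iff_dvd.1 h4
      obtain ⟨p', hp', hpp'⟩ := (hp.prime.dvd_finsetProd_iff _).1 hpq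
      have h6 : p = p' := (Nat.prime_dvd_prime_iff_eq hp (hP p' hp').1).1 hpp'
      subst h6
      have h7 : insert p (N.primeFactors \ (F ∪ P)) ⊆ N.primeFactors \ F := by
        intro x hx
        rw [mem_insert] at hx
        rw [Finset.mem_sdiff]
        rcases hx with rfl | hx
        · exact ⟨Nat.mem_primeFactors.2 ⟨hp, hpN, ne_zero_of_mem hN.1⟩, (hP x hp').2.2⟩
        · rw [Finset.mem_sdiff, mem_union, not_or] at hx
          exact ⟨hx.1, hx.2.1⟩
      have h8 := card_le_card h7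
      rw [card_insert_of_notMem (by
        rw [Finset.mem_sdiff, mem_union, not_and_or, not_not]
        exact Or.inr (Or.inr hp'))] at h8
      omega
    have h4 := card_le_card hsub
    have h5 := h4.trans (card_union_le _ _)
    have h6 : (((S m).filter fun N => (N.primeFactors \ F).card < k + 1).card : ℝ) ≤
        ((S m).filter fun N : ℕ => q.Coprime N).card +
          ((S m).filter fun N => (N.primeFactors \ (F ∪ P)).card < k).card := by
      exact_mod_cast h5
    rw [div_lt_iff₀ (by positivity)] at h2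
    linarith

end Pool.Agent.K1H4.AP
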