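import Pool.Agent.K1H4.AP.Comb

set_option autoImplicit false

/-!
# Antipalindromic numbers in base 3: equidistribution
-/

namespace Pool.Agent.K1H4.AP

open Finset Filter

section fourier

variable {q : ℕ} [NeZero q]

noncomputable def E (m : ℕ) (ψ : AddChar (ZMod q) ℂ) : ℂ := ∑ N ∈ S m, ψ (N : ZMod q)

theorem E_succ (m : ℕ) (ψ : AddChar (ZMod q) ℂ) : E (m + 1) ψ =
    (ψ (2 * 9 ^ (m + 1)) * (1 + ψ (1 - 9 ^ (m + 1)) + ψ (1 - 9 ^ (m + 1)) ^ 2)) *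
      E m (ψ.mulShift 3) := by
  unfold E
  rw [sum_S, mul_sum]
  refine sum_congr rfl fun N _ => ?_
  rw [sum_range_succ, sum_range_succ, sum_range_succ, sum_range_zero, zero_add,
    AddChar.mulShift_apply]
  have e0 : ((3 * N + 0 + (2 - 0) * 9 ^ (m + 1) : ℕ) : ZMod q) =
      2 * 9 ^ (m + 1) + 3 * (N : ZMod q) := by
    push_cast
    ring
  have e1 : ((3 * N + 1 + (2 - 1) * 9 ^ (m + 1) : ℕ) : ZMod q) =
      2 * 9 ^ (m + 1) + (1 - 9 ^ (m + 1)) + 3 * (N : ZMod q) := by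
    norm_num
    ring
  have e2 : ((3 * N + 2 + (2 - 2) * 9 ^ (m + 1) : ℕ) : ZMod q) =
      2 * 9 ^ (m + 1) + ((1 - 9 ^ (m + 1)) + (1 - 9 ^ (m + 1))) + 3 * (N : ZMod q) := by
    norm_num
    ring
  rw [e0, e1, e2]
  simp only [AddChar.map_add_eq_mul]
  ring

theorem lt3 {z : ℂ} (hz : ‖z‖ = 1) (h : z ≠ 1) : ‖1 + z + z ^ 2‖ < 3 := by
  by_contra hcon
  rw [not_lt] at hcon
  have h1 : ‖1 + z + z ^ 2‖ ≤ ‖1 + z‖ + ‖z ^ 2‖ := norm_add_le _ _
  rw [norm_pow, hz, one_pow] at h1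
  have h2 : 2 ≤ ‖1 + z‖ := by linarith
  have h3 : ‖1 + z‖ ^ 2 = (1 + z.re) ^ 2 + z.im ^ 2 := by
    rw [Complex.sq_norm, Complex.normSq_apply]
    simp
    ring
  have h4 : z.re ^ 2 + z.im ^ 2 = 1 := by
    have : ‖z‖ ^ 2 = z.re ^ 2 + z.im ^ 2 := by
      rw [Complex.sq_norm, Complex.normSq_apply]
      ring
    rw [← this, hz, one_pow]
  have h5 : 4 ≤ ‖1 + z‖ ^ 2 := by nlinarith
  have h6 : 1 ≤ z.re := by nlinarith
  have h7 : z.im = 0 := by
    have : z.im ^ 2 ≤ 0 := by nlinarith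
    exact pow_eq_zero_iff (n := 2) (by norm_num) |>.1 (le_antisymm this (sq_nonneg _))
  have h8 : z.re = 1 := by
    rw [h7] at h4
    nlinarith
  exact h (Complex.ext h8 h7)

/-- Nontrivial characters. -/
def NT (ψ : AddChar (ZMod q) ℂ) : Prop := ∃ x, ψ x ≠ 1

theorem nt_shift {ψ : AddChar (ZMod q) ℂ} (h : NT ψ) {u : ZMod q} (hu : IsUnit u) :
    NT (ψ.mulShift u) := by
  obtain ⟨x, hx⟩ := h
  obtain ⟨v, rfl⟩ := hu
  refine ⟨(v⁻¹ : (ZMod q)ˣ) * x, ?_⟩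
  rw [AddChar.mulShift_apply]
  have : (v : ZMod q) * (((v⁻¹ : (ZMod q)ˣ) : ZMod q) * x) = x := by
    rw [← mul_assoc, Units.mul_inv, one_mul]
  rwa [this]

theorem nt_unit {ψ : AddChar (ZMod q) ℂ} (h : NT ψ) {u : ZMod q} (hu : IsUnit u) : ψ u ≠ 1 := by
  intro h1
  obtain ⟨x, hx⟩ := h
  obtain ⟨v, rfl⟩ := hu
  apply hx
  have h2 : x = (((v⁻¹ : (ZMod q)ˣ) : ZMod q) * x).val • (v : ZMod q) := by
    rw [nsmul_eq_mul, ZMod.natCast_zmod_val]
    rw [mul_comm, ← mul_assoc, Units.mul_inv, one_mul]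
  rw [h2, AddChar.map_nsmul_eq_pow, h1, one_pow]

theorem exists_rho (hq : IsUnit (-8 : ZMod q)) : ∃ ρ : ℝ, 0 < ρ ∧ ρ < 1 ∧
    ∀ ψ : AddChar (ZMod q) ℂ, NT ψ → ‖1 + ψ (-8) + ψ (-8) ^ 2‖ ≤ 3 * ρ := by
  classical
  obtain ⟨ψ₀, hψ₀⟩ := Finite.exists_max (fun ψ : AddChar (ZMod q) ℂ =>
    if NT ψ then ‖1 + ψ (-8) + ψ (-8) ^ 2‖ else 0)
  have h3 : (if NT ψ₀ then ‖1 + ψ₀ (-8) + ψ₀ (-8) ^ 2‖ else 0) < 3 := by
    split_ifs with h
    · exact lt3 (AddChar.norm_apply _ _) (nt_unit h hq)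
    · norm_num
  refine ⟨max ((if NT ψ₀ then ‖1 + ψ₀ (-8) + ψ₀ (-8) ^ 2‖ else 0) / 3) (1 / 2), ?_, ?_, ?_⟩
  · exact lt_of_lt_of_le (by norm_num) (le_max_right _ _)
  · refine max_lt ?_ (by norm_num)
    rw [div_lt_one (by norm_num)]
    exact h3
  · intro ψ hψ
    have h1 := hψ₀ ψ
    simp only [if_pos hψ] at h1
    have h2 := le_max_left ((if NT ψ₀ then ‖1 + ψ₀ (-8) + ψ₀ (-8) ^ 2‖ else 0) / 3) (1 / 2 : ℝ)
    linarith

/-- The number of good steps. -/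
def cc (h m : ℕ) : ℕ := ((range m).filter fun i => h ∣ i).card

theorem cc_succ (h m : ℕ) : cc h (m + 1) = cc h m + if h ∣ m then 1 else 0 := by
  unfold cc
  rw [range_add_one, filter_insert]
  split_ifs with h1
  · rw [card_insert_of_notMem (by simp)]
  · rfl

theorem cc_ge {h : ℕ} (hh : 0 < h) (m : ℕ) : m / h ≤ cc h m := by
  have h1 : ((range (m / h)).image fun i => h * i) ⊆ (range m).filter fun i => h ∣ i := by
    intro x hx
    obtain ⟨i, hi, rfl⟩ := mem_image.1 hx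
    rw [mem_filter, mem_range]
    refine ⟨?_, dvd_mul_right _ _⟩
    have h2 := mem_range.1 hi
    calc h * i < h * (m / h) := Nat.mul_lt_mul_of_pos_left h2 hh
      _ ≤ m := Nat.mul_div_le m h
  have h2 := card_le_card h1
  rwa [card_image_of_injective _ (fun a b hab => Nat.eq_of_mul_eq_mul_left hh hab),
    card_range] at h2

theorem cc_tendsto {h : ℕ} (hh : 0 < h) : Tendsto (cc h) atTop atTop := by
  refine tendsto_atTop.2 fun b => ?_
  filter_upwards [eventually_ge_atTop (b * h)] with m hm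
  exact ((Nat.le_div_iff_mul_le hh).2 hm).trans (cc_ge hh m)

theorem E_bound (hq : q.Coprime 6) : ∃ ρ : ℝ, 0 < ρ ∧ ρ < 1 ∧
    ∀ (m : ℕ) (ψ : AddChar (ZMod q) ℂ), NT ψ → ‖E m ψ‖ ≤ 3 ^ m * ρ ^ cc (Nat.totient q) m := by
  have h2 : Nat.Coprime 2 q := (Nat.Coprime.coprime_dvd_right (by norm_num) hq).symm
  have h3 : Nat.Coprime 3 q := (Nat.Coprime.coprime_dvd_right (by norm_num) hq).symm
  have h8 : IsUnit (-8 : ZMod q) := by
    have : IsUnit ((8 : ℕ) : ZMod q) := by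
      rw [ZMod.isUnit_iff_coprime]
      exact Nat.Coprime.pow_left 3 h2
    exact IsUnit.neg (by exact_mod_cast this)
  have hu3 : IsUnit (3 : ZMod q) := by
    have : IsUnit ((3 : ℕ) : ZMod q) := by
      rw [ZMod.isUnit_iff_coprime]
      exact h3
    exact_mod_cast this
  obtain ⟨ρ, hρ0, hρ1, hρ⟩ := exists_rho h8
  refine ⟨ρ, hρ0, hρ1, fun m => ?_⟩
  induction m with
  | zero =>
    intro ψ _
    simp [E, S, cc, AddChar.norm_apply]
  | succ m ih =>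
    intro ψ hψ
    have h5 := ih _ (nt_shift hψ hu3)
    rw [E_succ, norm_mul, norm_mul, AddChar.norm_apply, one_mul, cc_succ]
    by_cases h6 : Nat.totient q ∣ m
    · rw [if_pos h6]
      have h9 : (9 : ZMod q) ^ (m + 1) = 9 := by
        obtain ⟨t, ht⟩ := h6
        have h10 : ((9 : ℕ) ^ Nat.totient q : ZMod q) = 1 := by
          have h11 : Nat.Coprime 9 q := Nat.Coprime.pow_left 2 h3
          have h12 := (ZMod.natCast_eq_natCast_iff _ _ q).2 (Nat.ModEq.pow_totient h11)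
          push_cast at h12 ⊢
          exact h12
        push_cast at h10
        rw [pow_succ, ht, pow_mul, h10, one_pow, one_mul]
      have h10 : (1 : ZMod q) - 9 = -8 := by norm_num
      rw [h9, h10]
      calc ‖1 + ψ (-8) + ψ (-8) ^ 2‖ * ‖E m (ψ.mulShift 3)‖
          ≤ (3 * ρ) * (3 ^ m * ρ ^ cc (Nat.totient q) m) :=
            mul_le_mul (hρ ψ hψ) h5 (norm_nonneg _) (by positivity)
        _ = 3 ^ (m + 1) * ρ ^ (cc (Nat.totient q) m + 1) := by ring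
    · rw [if_neg h6, add_zero]
      have h10 : ‖1 + ψ (1 - 9 ^ (m + 1)) + ψ (1 - 9 ^ (m + 1)) ^ 2‖ ≤ 3 := by
        refine (norm_add_le _ _).trans ?_
        refine (add_le_add_left (norm_add_le _ _) _).trans ?_
        rw [norm_pow, AddChar.norm_apply, norm_one]
        norm_num
      calc ‖1 + ψ (1 - 9 ^ (m + 1)) + ψ (1 - 9 ^ (m + 1)) ^ 2‖ * ‖E m (ψ.mulShift 3)‖
          ≤ 3 * (3 ^ m * ρ ^ cc (Nat.totient q) m) :=
            mul_le_mul h10 h5 (norm_nonneg _) (by norm_num)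
        _ = 3 ^ (m + 1) * ρ ^ cc (Nat.totient q) m := by ring

end fourier

end Pool.Agent.K1H4.AP
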